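import Mathlib

/-!
# The density-modified quotient `FMQ(Y, A, D_Y)` is `k₂`-Hausdorff

For every compact Hausdorff space `Y` without isolated points and every closed nowhere dense
`A ⊆ Y`; in particular for `Y = βℕ \ ℕ` and `A` finite.
-/

set_option autoImplicit false

namespace Pool.Agent.Results.MP_a8a70f_gt.KTwoHausdorff

open Set Topology

universe u v

/-- The equivalence relation on `Y` that collapses `A` to one point. -/
def collapse {Y : Type u} (A : Set Y) : Setoid Y where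
  r x y := x = y ∨ (x ∈ A ∧ y ∈ A)
  iseqv :=
    { refl := fun _ => Or.inl rfl
      symm := fun h => h.elim (fun h => Or.inl h.symm) (fun h => Or.inr ⟨h.2, h.1⟩)
      trans := by
        rintro x y z (rfl | ⟨hx, hy⟩) (rfl | ⟨hy', hz⟩)
        · exact Or.inl rfl
        · exact Or.inr ⟨hy', hz⟩
        · exact Or.inr ⟨hx, hy⟩
        · exact Or.inr ⟨hx, hz⟩ }

/-- The set `Y/A`. -/
def FMQ {Y : Type u} (A : Set Y) : Type u := Quotient (collapse A)

/-- The quotient map `q : Y → Y/A`. -/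
def q {Y : Type u} (A : Set Y) : Y → FMQ A := Quotient.mk (collapse A)

lemma q_eq_iff {Y : Type u} {A : Set Y} {x y : Y} : q A x = q A y ↔ x = y ∨ (x ∈ A ∧ y ∈ A) :=
  Quotient.eq (r := collapse A)

lemma q_surj {Y : Type u} {A : Set Y} (x : FMQ A) : ∃ y, q A y = x :=
  Quotient.exists_rep x

/-- The topology of `FMQ(Y, A, D_Y)`: `U` is open iff `q⁻¹(U)` is open and, if `U` contains the
collapsed point, `q⁻¹(U)` is also dense. -/
instance {Y : Type u} [TopologicalSpace Y] (A : Set Y) : TopologicalSpace (FMQ A) where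
  IsOpen U := IsOpen (q A ⁻¹' U) ∧ ((∃ a ∈ A, q A a ∈ U) → Dense (q A ⁻¹' U))
  isOpen_univ := ⟨isOpen_univ, fun _ => by simp⟩
  isOpen_inter := by
    rintro U V ⟨hU, hU'⟩ ⟨hV, hV'⟩
    refine ⟨hU.inter hV, ?_⟩
    rintro ⟨a, ha, haU, haV⟩
    exact (hU' ⟨a, ha, haU⟩).inter_of_isOpen_left (hV' ⟨a, ha, haV⟩) hU
  isOpen_sUnion := by
    intro s hs
    constructor
    · rw [preimage_sUnion]
      exact isOpen_biUnion fun t ht => (hs t ht).1
    · rintro ⟨a, ha, t, ht, hat⟩
      refine ((hs t ht).2 ⟨a, ha, hat⟩).mono ?_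
      exact preimage_mono (subset_sUnion_of_mem ht)

/-- `X` is `k₂`-Hausdorff: for every compact Hausdorff `K` and continuous `f : K → X` the set
`{(a, b) | f a = f b}` is closed in `K × K`. -/
def KTwoHausdorff (X : Type u) [TopologicalSpace X] : Prop :=
  ∀ (K : Type v) [TopologicalSpace K] [CompactSpace K] [T2Space K] (f : K → X), Continuous f →
    IsClosed {p : K × K | f p.1 = f p.2}

section

variable {Y : Type u} [TopologicalSpace Y] {A : Set Y}

lemma isOpen_fmq {U : Set (FMQ A)} :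
    IsOpen U ↔ IsOpen (q A ⁻¹' U) ∧ ((∃ a ∈ A, q A a ∈ U) → Dense (q A ⁻¹' U)) := Iff.rfl

omit [TopologicalSpace Y] in
lemma pre_image {S : Set Y} (hS : ∀ x ∈ S, x ∉ A) : q A ⁻¹' (q A '' S) = S := by
  ext x
  constructor
  · rintro ⟨y, hy, hxy⟩
    rcases q_eq_iff.1 hxy with h | h
    · rwa [← h]
    · exact absurd h.1 (hS y hy)
  · intro hx; exact ⟨x, hx, rfl⟩

omit [TopologicalSpace Y] in
lemma mem_image {S : Set Y} (hS : ∀ x ∈ S, x ∉ A) {x : Y} : q A x ∈ q A '' S ↔ x ∈ S := by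
  have := pre_image hS
  rw [← mem_preimage, this]

lemma open_image {S : Set Y} (hS : ∀ x ∈ S, x ∉ A) (ho : IsOpen S) : IsOpen (q A '' S) := by
  rw [isOpen_fmq, pre_image hS]
  refine ⟨ho, ?_⟩
  rintro ⟨a, ha, h⟩
  exact absurd ha (hS a ((mem_image hS).1 h))

lemma closed_image {S : Set Y} (hS : ∀ x ∈ S, x ∉ A) (hc : IsClosed S) (hi : interior S = ∅) :
    IsClosed (q A '' S) := by
  rw [← isOpen_compl_iff, isOpen_fmq, preimage_compl, pre_image hS]
  refine ⟨hc.isOpen_compl, fun _ => ?_⟩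
  exact interior_eq_empty_iff_dense_compl.1 hi

/-- the main case -/
lemma main_case {K : Type v} [TopologicalSpace K] [CompactSpace K] [T2Space K] [CompactSpace Y]
    [T2Space Y] (hiso : ∀ y : Y, ¬ IsOpen ({y} : Set Y)) (hA : IsClosed A)
    {f : K → FMQ A} (hf : Continuous f) {a b : K} {y e : Y} (hy : y ∉ A) (he : e ∈ A)
    (hfa : f a = q A y) (hfb : f b = q A e) : (a, b) ∉ closure {p : K × K | f p.1 = f p.2} := by
  -- a closed neighbourhood of `y` that misses `A`
  obtain ⟨W, hWn, hWc, hWA⟩ : ∃ W ∈ 𝓝 y, IsClosed W ∧ W ⊆ Aᶜ :=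
    exists_mem_nhds_isClosed_subset (hA.isOpen_compl.mem_nhds hy)
  have hWA' : ∀ x ∈ W, x ∉ A := fun x hx => hWA hx
  -- the closed set `E`
  set E : Set K := {x | f x = q A e} with hE
  have hEc : IsClosed E := by
    have h1 : IsOpen (q A '' Aᶜ) := open_image (fun x hx => hx) hA.isOpen_compl
    have h2 : E = (f ⁻¹' (q A '' Aᶜ))ᶜ := by
      ext x
      obtain ⟨z, hz⟩ := q_surj (f x)
      simp only [hE, mem_ofPred_eq, mem_compl_iff, mem_preimage]
      rw [← hz, mem_image (S := Aᶜ) (fun x hx => hx), q_eq_iff, mem_compl_iff, not_not]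
      constructor
      · rintro (h | h)
        · rw [h]; exact he
        · exact h.1
      · intro h; exact Or.inr ⟨h, he⟩
    rw [h2]
    exact (h1.preimage hf).isClosed_compl
  -- the maximal disjoint family
  obtain ⟨𝒟, h𝒟⟩ : ∃ 𝒟, Maximal (· ∈ {𝒟 : Set (Set Y) | (∀ D ∈ 𝒟, IsOpen D ∧ D.Nonempty ∧
      y ∉ closure D) ∧ 𝒟.PairwiseDisjoint id}) 𝒟 := by
    apply zorn_subset
    intro c hc hchain
    refine ⟨⋃₀ c, ⟨?_, ?_⟩, fun s hs => subset_sUnion_of_mem hs⟩
    · rintro D ⟨s, hs, hD⟩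
      exact (hc hs).1 D hD
    · exact (pairwiseDisjoint_sUnion hchain.directedOn).2 fun s hs => (hc hs).2
  have hDo : ∀ D ∈ 𝒟, IsOpen D := fun D hD => (h𝒟.prop.1 D hD).1
  have hDy : ∀ D ∈ 𝒟, y ∉ closure D := fun D hD => (h𝒟.prop.1 D hD).2.2
  have hDd : 𝒟.PairwiseDisjoint id := h𝒟.prop.2
  have hdense : Dense (⋃₀ 𝒟) := by
    rw [dense_iff_inter_open]
    intro V hV hVne
    by_contra hcon
    rw [not_nonempty_iff_eq_empty] at hcon
    -- a point of `V` different from `y`
    obtain ⟨z, hzV, hzy⟩ : ∃ z ∈ V, z ≠ y := by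
      by_contra h
      push Not at h
      have : V = {y} := by
        apply Subset.antisymm
        · intro x hx; exact h x hx
        · obtain ⟨x, hx⟩ := hVne
          rw [← h x hx]; simpa using hx
      exact hiso y (this ▸ hV)
    obtain ⟨C, hCn, hCc, hCs⟩ : ∃ C ∈ 𝓝 z, IsClosed C ∧ C ⊆ V ∩ {y}ᶜ :=
      exists_mem_nhds_isClosed_subset ((hV.inter isOpen_compl_singleton).mem_nhds ⟨hzV, hzy⟩)
    have hD0 : interior C ∉ 𝒟 := by
      intro h
      have h1 : z ∈ V ∩ ⋃₀ 𝒟 := ⟨hzV, interior C, h, mem_interior_iff_mem_nhds.2 hCn⟩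
      rw [hcon] at h1
      exact h1
    have hmem : insert (interior C) 𝒟 ∈ {𝒟 : Set (Set Y) | (∀ D ∈ 𝒟, IsOpen D ∧ D.Nonempty ∧
        y ∉ closure D) ∧ 𝒟.PairwiseDisjoint id} := by
      constructor
      · rintro D (rfl | hD)
        · refine ⟨isOpen_interior, ⟨z, mem_interior_iff_mem_nhds.2 hCn⟩, ?_⟩
          intro h
          have h1 : closure (interior C) ⊆ C := closure_minimal interior_subset hCc
          exact (hCs (h1 h)).2 rfl
        · exact h𝒟.prop.1 D hD
      · apply hDd.insert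
        intro D hD _
        rw [id, id, Set.disjoint_left]
        intro x hx hx'
        have h1 : x ∈ V ∩ ⋃₀ 𝒟 := ⟨(hCs (interior_subset hx)).1, D, hD, hx'⟩
        rw [hcon] at h1
        exact h1
    have := h𝒟.le_of_ge hmem (subset_insert _ _)
    exact hD0 (this (mem_insert _ _))
  -- the closed nowhere dense set `C₀`
  set C₀ : Set Y := W \ ⋃₀ 𝒟 with hC₀
  have hC₀A : ∀ x ∈ C₀, x ∉ A := fun x hx => hWA hx.1
  have hC₀c : IsClosed C₀ := hWc.sdiff (isOpen_sUnion hDo)
  have hC₀i : interior C₀ = ∅ := by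
    rw [interior_eq_empty_iff_dense_compl]
    apply hdense.mono
    intro x hx hx'
    exact hx'.2 hx
  have hPc : IsClosed (f ⁻¹' (q A '' C₀)) := (closed_image hC₀A hC₀c hC₀i).preimage hf
  have hPE : Disjoint (f ⁻¹' (q A '' C₀)) E := by
    rw [Set.disjoint_left]
    intro x hx hx'
    rw [mem_preimage, hx', mem_image hC₀A] at hx
    exact hC₀A e hx he
  obtain ⟨N, N', hNo, hN'o, hPN, hEN', hNN'⟩ := normal_separation hPc hEc hPE
  -- the set `M`
  set M : Set K := (f ⁻¹' (q A '' W)) \ (N ∪ E) with hM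
  have hMEc : IsClosed (M ∪ E) := by
    rw [← isOpen_compl_iff]
    have h1 : (M ∪ E)ᶜ = f ⁻¹' (q A '' (Aᶜ ∩ Wᶜ)) ∪ (N ∩ Eᶜ) := by
      ext x
      obtain ⟨z, hz⟩ := q_surj (f x)
      have hzE : x ∈ E ↔ z ∈ A := by
        simp only [hE, mem_ofPred_eq]
        rw [← hz, q_eq_iff]
        constructor
        · rintro (h | h)
          · rw [h]; exact he
          · exact h.1
        · intro h; exact Or.inr ⟨h, he⟩
      have hz1 : x ∈ f ⁻¹' (q A '' W) ↔ z ∈ W := by
        rw [mem_preimage, ← hz, mem_image hWA']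
      have hz2 : x ∈ f ⁻¹' (q A '' (Aᶜ ∩ Wᶜ)) ↔ z ∉ A ∧ z ∉ W := by
        rw [mem_preimage, ← hz, mem_image (fun x hx => hx.1)]; rfl
      rw [mem_compl_iff, mem_union, mem_union, hz2, hM, mem_sdiff, mem_union, hz1, mem_inter_iff,
        mem_compl_iff, hzE]
      tauto
    rw [h1]
    refine IsOpen.union ?_ (hNo.inter hEc.isOpen_compl)
    exact (open_image (fun x hx => hx.1) (hA.isOpen_compl.inter hWc.isOpen_compl)).preimage hf
  -- points of `M`
  have hMpt : ∀ x ∈ M, ∃ z ∈ W, f x = q A z ∧ ∃ D ∈ 𝒟, z ∈ D := by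
    intro x hx
    obtain ⟨z, hzW, hz⟩ := hx.1
    refine ⟨z, hzW, hz.symm, ?_⟩
    by_contra h
    apply hx.2
    left
    apply hPN
    rw [mem_preimage, ← hz, mem_image hC₀A]
    exact ⟨hzW, fun ⟨D, hD, hzD⟩ => h ⟨D, hD, hzD⟩⟩
  -- finiteness
  set 𝒟' : Set (Set Y) := {D ∈ 𝒟 | ∃ x ∈ M, ∃ z ∈ W, f x = q A z ∧ z ∈ D} with h𝒟'
  have hfin : 𝒟'.Finite := by
    by_contra hinf
    have hinf' : 𝒟'.Infinite := hinf
    set g := hinf'.natEmbedding with hg
    have hg1 : ∀ n, ((g n : Set Y)) ∈ 𝒟 := fun n => (g n).2.1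
    have hg2 : ∀ n, ∃ x ∈ M, ∃ z ∈ W, f x = q A z ∧ z ∈ (g n : Set Y) := fun n => (g n).2.2
    choose x hxM z hzW hfz hzg using hg2
    have hgd : ∀ {m n w}, w ∈ (g m : Set Y) → w ∈ (g n : Set Y) → m = n := by
      intro m n w hm hn
      by_contra hne
      have h1 : (g m : Set Y) ≠ g n := fun h => hne (g.injective (Subtype.ext h))
      exact Set.disjoint_left.1 (hDd (hg1 m) (hg1 n) h1) hm hn
    set Q : Set Y := closure (range z) with hQ
    have hQW : Q ⊆ W := closure_minimal (by rintro _ ⟨n, rfl⟩; exact hzW n) hWc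
    have hQA : ∀ w ∈ Q, w ∉ A := fun w hw => hWA (hQW hw)
    have hQi : interior Q = ∅ := by
      by_contra hne
      obtain ⟨w, hw⟩ := nonempty_iff_ne_empty.2 hne
      obtain ⟨_, hw1, ⟨n, rfl⟩⟩ := mem_closure_iff.1 (interior_subset hw) _ isOpen_interior hw
      -- the open set `interior Q ∩ g n` is the singleton `{z n}`
      have hs : interior Q ∩ (g n : Set Y) = {z n} := by
        apply Subset.antisymm
        · rintro v ⟨hv1, hv2⟩
          by_contra hvne
          have hvne' : v ≠ z n := hvne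
          obtain ⟨_, hu, ⟨m, rfl⟩⟩ := mem_closure_iff.1 (interior_subset hv1)
            ((g n : Set Y) ∩ {z n}ᶜ) ((hDo _ (hg1 n)).inter isOpen_compl_singleton)
            ⟨hv2, hvne'⟩
          have : m = n := hgd (hzg m) hu.1
          rw [this] at hu
          exact hu.2 rfl
        · rintro v rfl
          exact ⟨hw1, hzg n⟩
      exact hiso (z n) (hs ▸ isOpen_interior.inter (hDo _ (hg1 n)))
    have hcl : IsClosed (f ⁻¹' (q A '' Q)) := (closed_image hQA isClosed_closure hQi).preimage hf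
    have hcomp : IsCompact (M ∩ f ⁻¹' (q A '' Q)) := by
      have h1 : M ∩ f ⁻¹' (q A '' Q) = (M ∪ E) ∩ f ⁻¹' (q A '' Q) := by
        ext v
        constructor
        · rintro ⟨h1, h2⟩; exact ⟨Or.inl h1, h2⟩
        · rintro ⟨h1 | h1, h2⟩
          · exact ⟨h1, h2⟩
          · exfalso
            rw [mem_preimage, h1, mem_image hQA] at h2
            exact hQA e h2 he
      rw [h1]
      exact (hMEc.inter hcl).isCompact
    obtain ⟨b', hb'1, hb'2, hb'3⟩ := hcomp.elim_finite_subcover_image (b := 𝒟)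
      (c := fun D => f ⁻¹' (q A '' (D ∩ Aᶜ)))
      (fun D hD => (open_image (fun x hx => hx.2)
        ((hDo D hD).inter hA.isOpen_compl)).preimage hf)
      (by
        rintro v ⟨hv1, hv2⟩
        obtain ⟨w, hwW, hfw, D, hD, hwD⟩ := hMpt v hv1
        simp only [mem_iUnion]
        exact ⟨D, hD, w, ⟨hwD, hWA hwW⟩, hfw.symm⟩)
    have hall : ∀ n, (g n : Set Y) ∈ b' := by
      intro n
      have h1 : x n ∈ M ∩ f ⁻¹' (q A '' Q) :=
        ⟨hxM n, z n, subset_closure (mem_range_self n), (hfz n).symm⟩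
      have h2 := hb'3 h1
      simp only [mem_iUnion] at h2
      obtain ⟨D, hD, w, ⟨hwD, hwA⟩, hw⟩ := h2
      rw [hfz n] at hw
      have hwz : w = z n := by
        rcases q_eq_iff.1 hw with h | h
        · exact h
        · exact absurd h.1 hwA
      rw [hwz] at hwD
      have hDg : D = (g n : Set Y) := by
        by_contra hne
        exact Set.disjoint_left.1 (hDd (hb'1 hD) (hg1 n) hne) hwD (hzg n)
      rwa [← hDg]
    have h3 : (range fun n => (g n : Set Y)).Finite := hb'2.subset (by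
      rintro _ ⟨n, rfl⟩; exact hall n)
    exact (infinite_range_of_injective (f := fun n => (g n : Set Y))
      (fun m n h => g.injective (Subtype.ext h))) h3
  -- conclusion
  intro hcl
  have hnot : y ∉ closure (⋃₀ 𝒟') := by
    rw [hfin.closure_sUnion]
    simp only [mem_iUnion, not_exists]
    intro D hD
    exact hDy D hD.1
  set O : Set Y := interior W ∩ (closure (⋃₀ 𝒟'))ᶜ with hO
  have hOo : IsOpen O := isOpen_interior.inter isClosed_closure.isOpen_compl
  have hOA : ∀ v ∈ O, v ∉ A := fun v hv => hWA (interior_subset hv.1)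
  have hyO : y ∈ O := ⟨mem_interior_iff_mem_nhds.2 hWn, hnot⟩
  have hNc : b ∉ closure N := by
    intro h
    have : closure N ⊆ N'ᶜ := closure_minimal (fun v hv hv' => Set.disjoint_left.1 hNN' hv hv')
      hN'o.isClosed_compl
    exact this h (hEN' hfb)
  obtain ⟨⟨a', b'⟩, ⟨ha', hb'⟩, hab⟩ := mem_closure_iff.1 hcl
    ((f ⁻¹' (q A '' O)) ×ˢ (closure N)ᶜ)
    (((open_image hOA hOo).preimage hf).prod isClosed_closure.isOpen_compl)
    ⟨⟨y, hyO, hfa.symm⟩, hNc⟩
  have hab' : f a' = f b' := hab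
  obtain ⟨v, hvO, hv⟩ := ha'
  have hvW : v ∈ W := interior_subset hvO.1
  have hb'M : b' ∈ M := by
    refine ⟨⟨v, hvW, by rw [hv, hab']⟩, ?_⟩
    rintro (h | h)
    · exact hb' (subset_closure h)
    · have h1 : f b' = q A e := h
      rw [← hab', ← hv] at h1
      rcases q_eq_iff.1 h1 with h2 | h2
      · exact hOA v hvO (h2 ▸ he)
      · exact hOA v hvO h2.1
  obtain ⟨w, hwW, hfw, D, hD, hwD⟩ := hMpt b' hb'M
  have hwv : w = v := by
    have : q A w = q A v := by rw [← hfw, ← hab', hv]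
    rcases q_eq_iff.1 this with h | h
    · exact h
    · exact absurd h.1 (hWA hwW)
  apply hvO.2
  apply subset_closure
  exact ⟨D, ⟨hD, b', hb'M, w, hwW, hfw, hwD⟩, hwv ▸ hwD⟩

theorem general [CompactSpace Y] [T2Space Y] (hiso : ∀ y : Y, ¬ IsOpen ({y} : Set Y))
    (hA : IsClosed A) : KTwoHausdorff.{u, v} (FMQ A) := by
  intro K _ _ _ f hf
  rw [← closure_subset_iff_isClosed]
  rintro ⟨a, b⟩ hab
  by_contra hne
  have hne' : f a ≠ f b := hne
  obtain ⟨y, hy⟩ := q_surj (f a)
  obtain ⟨e, he⟩ := q_surj (f b)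
  by_cases hyA : y ∈ A
  · by_cases heA : e ∈ A
    · exact hne' (by rw [← hy, ← he]; exact q_eq_iff.2 (Or.inr ⟨hyA, heA⟩))
    · apply main_case hiso hA hf heA hyA he.symm hy.symm
      rw [mem_closure_iff] at hab ⊢
      intro o ho hbo
      obtain ⟨⟨p, r⟩, h1, h2⟩ := hab (Prod.swap ⁻¹' o) (ho.preimage continuous_swap) hbo
      exact ⟨(r, p), h1, Eq.symm h2⟩
  · by_cases heA : e ∈ A
    · exact main_case hiso hA hf hyA heA hy.symm he.symm hab
    · have hye : y ≠ e := by
        rintro rfl; exact hne' (by rw [← hy, ← he])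
      obtain ⟨U, V, hU, hV, hyU, heV, hUV⟩ := t2_separation hye
      obtain ⟨⟨a', b'⟩, ⟨⟨v, hv, hfv⟩, ⟨w, hw, hfw⟩⟩, hab'⟩ := mem_closure_iff.1 hab
        ((f ⁻¹' (q A '' (U ∩ Aᶜ))) ×ˢ (f ⁻¹' (q A '' (V ∩ Aᶜ))))
        (((open_image (fun x hx => hx.2) (hU.inter hA.isOpen_compl)).preimage hf).prod
          ((open_image (fun x hx => hx.2) (hV.inter hA.isOpen_compl)).preimage hf))
        ⟨⟨y, ⟨hyU, hyA⟩, hy⟩, ⟨e, ⟨heV, heA⟩, he⟩⟩
      have h1 : f a' = f b' := hab'
      have h2 : q A v = q A w := by rw [hfv, hfw]; exact h1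
      rcases q_eq_iff.1 h2 with h | h
      · exact Set.disjoint_left.1 hUV hv.1 (h ▸ hw.1)
      · exact hv.2 h.1

end

/-- The remainder `βℕ \ ℕ` of the Čech–Stone compactification of the discrete space `ℕ`. -/
abbrev Remainder : Type := {p : StoneCech ℕ // p ∉ range (stoneCechUnit : ℕ → StoneCech ℕ)}

/-- the extension of a zero-one sequence to `βℕ` -/
lemma exists_ext (g : ℕ → Bool) : ∃ F : StoneCech ℕ → Bool, Continuous F ∧
    ∀ n, F (stoneCechUnit n) = g n := by
  have hg : Continuous g := continuous_of_discreteTopology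
  refine ⟨stoneCechExtend hg, continuous_stoneCechExtend hg, fun n => ?_⟩
  have := congrFun (stoneCechExtend_extends hg) n
  simpa only [Function.comp] using this

lemma unit_inj : Function.Injective (stoneCechUnit : ℕ → StoneCech ℕ) := by
  intro m n h
  obtain ⟨F, -, hF⟩ := exists_ext (fun k => decide (k = m))
  have h1 := hF m
  rw [h, hF n] at h1
  simpa [eq_comm] using h1

lemma isOpen_unit (n : ℕ) : IsOpen ({stoneCechUnit n} : Set (StoneCech ℕ)) := by
  obtain ⟨F, hFc, hF⟩ := exists_ext (fun k => decide (k = n))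
  have h1 : IsOpen (F ⁻¹' {true}) := (isOpen_discrete _).preimage hFc
  convert h1 using 1
  apply Subset.antisymm
  · rintro _ rfl
    simp [hF]
  · intro p hp
    by_contra hne
    obtain ⟨m, hm⟩ := denseRange_stoneCechUnit.exists_mem_open
      (h1.inter isOpen_compl_singleton) ⟨p, hp, hne⟩
    have h2 : F (stoneCechUnit m) = true := hm.1
    rw [hF m] at h2
    have h3 : m = n := by simpa using h2
    exact hm.2 (by rw [h3]; rfl)

lemma exists_limit {S : Set ℕ} (hS : S.Infinite) :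
    ∃ p ∈ closure (stoneCechUnit '' S), p ∉ range (stoneCechUnit : ℕ → StoneCech ℕ) := by
  by_contra h
  push Not at h
  obtain ⟨t, ht⟩ := (isClosed_closure (s := stoneCechUnit '' S)).isCompact.elim_finite_subcover
    (fun n : ℕ => ({stoneCechUnit n} : Set (StoneCech ℕ))) isOpen_unit (by
      intro p hp
      obtain ⟨n, hn⟩ := h p hp
      exact mem_iUnion.2 ⟨n, hn.symm⟩)
  apply hS
  apply t.finite_toSet.subset
  intro m hm
  have := ht (subset_closure ⟨m, hm, rfl⟩)
  simp only [mem_iUnion] at this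
  obtain ⟨n, hn, h1⟩ := this
  have h2 : m = n := unit_inj h1
  rw [h2]
  exact hn

instance : CompactSpace Remainder := by
  have h : IsClosed {p : StoneCech ℕ | p ∉ range (stoneCechUnit : ℕ → StoneCech ℕ)} := by
    rw [← isOpen_compl_iff]
    have : {p : StoneCech ℕ | p ∉ range (stoneCechUnit : ℕ → StoneCech ℕ)}ᶜ =
        ⋃ n, {stoneCechUnit n} := by
      ext p
      simp [eq_comm]
    rw [this]
    exact isOpen_iUnion isOpen_unit
  exact isCompact_iff_compactSpace.1 h.isCompact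

lemma remainder_no_isolated (y : Remainder) : ¬ IsOpen ({y} : Set Remainder) := by
  intro ho
  obtain ⟨O, hO, hOy⟩ := isOpen_induced_iff.1 ho
  have hyO : (y : StoneCech ℕ) ∈ O := by
    have : y ∈ Subtype.val ⁻¹' O := by rw [hOy]; rfl
    exact this
  obtain ⟨C, hCn, hCc, hCO⟩ : ∃ C ∈ 𝓝 (y : StoneCech ℕ), IsClosed C ∧ C ⊆ O :=
    exists_mem_nhds_isClosed_subset (hO.mem_nhds hyO)
  set S : Set ℕ := {m | stoneCechUnit m ∈ C} with hS
  have hSinf : S.Infinite := by
    intro hfin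
    have h1 : IsClosed (stoneCechUnit '' S : Set (StoneCech ℕ)) := (hfin.image _).isClosed
    have h2 : (y : StoneCech ℕ) ∉ stoneCechUnit '' S := fun ⟨m, _, hm⟩ => y.2 ⟨m, hm⟩
    obtain ⟨m, hm⟩ := denseRange_stoneCechUnit.exists_mem_open
      (isOpen_interior.inter h1.isOpen_compl) ⟨y, mem_interior_iff_mem_nhds.2 hCn, h2⟩
    exact hm.2 ⟨m, (interior_subset hm.1 : stoneCechUnit m ∈ C), rfl⟩
  -- split `S` in two infinite sets
  obtain ⟨S1, S2, h1, h2, h12, hi1, hi2⟩ : ∃ S1 S2 : Set ℕ, S1 ⊆ S ∧ S2 ⊆ S ∧ Disjoint S1 S2 ∧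
      S1.Infinite ∧ S2.Infinite := by
    set g := hSinf.natEmbedding with hg
    have hginj : Function.Injective fun n => (g n : ℕ) :=
      fun m n h => g.injective (Subtype.ext h)
    refine ⟨range fun n => (g (2 * n) : ℕ), range fun n => (g (2 * n + 1) : ℕ), ?_, ?_, ?_, ?_, ?_⟩
    · rintro _ ⟨n, rfl⟩; exact (g _).2
    · rintro _ ⟨n, rfl⟩; exact (g _).2
    · rw [Set.disjoint_left]
      rintro _ ⟨n, rfl⟩ ⟨m, hm⟩
      have := hginj hm
      omega
    · apply infinite_range_of_injective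
      intro m n h
      have := hginj h
      omega
    · apply infinite_range_of_injective
      intro m n h
      have := hginj h
      omega
  obtain ⟨p1, hp1, hp1'⟩ := exists_limit hi1
  obtain ⟨p2, hp2, hp2'⟩ := exists_limit hi2
  have hin : ∀ {T : Set ℕ} {p : StoneCech ℕ}, T ⊆ S → p ∈ closure (stoneCechUnit '' T) → p ∈ O := by
    intro T p hT hp
    apply hCO
    apply closure_minimal _ hCc hp
    rintro _ ⟨m, hm, rfl⟩
    exact hT hm
  have e1 : (⟨p1, hp1'⟩ : Remainder) = y := by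
    have : (⟨p1, hp1'⟩ : Remainder) ∈ Subtype.val ⁻¹' O := hin h1 hp1
    rw [hOy] at this
    exact this
  have e2 : (⟨p2, hp2'⟩ : Remainder) = y := by
    have : (⟨p2, hp2'⟩ : Remainder) ∈ Subtype.val ⁻¹' O := hin h2 hp2
    rw [hOy] at this
    exact this
  have e3 : p1 = p2 := by
    have := congrArg Subtype.val (e1.trans e2.symm)
    exact this
  classical
  obtain ⟨F, hFc, hF⟩ := exists_ext (fun k => decide (k ∈ S1))
  have f1 : F p1 = true := by
    have hcl : IsClosed (F ⁻¹' {true}) := (isClosed_discrete _).preimage hFc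
    have : closure (stoneCechUnit '' S1) ⊆ F ⁻¹' {true} := closure_minimal (by
      rintro _ ⟨m, hm, rfl⟩
      simp [hF, hm]) hcl
    exact this hp1
  have f2 : F p2 = false := by
    have hcl : IsClosed (F ⁻¹' {false}) := (isClosed_discrete _).preimage hFc
    have : closure (stoneCechUnit '' S2) ⊆ F ⁻¹' {false} := closure_minimal (by
      rintro _ ⟨m, hm, rfl⟩
      have hm1 : m ∉ S1 := fun h => Set.disjoint_left.1 h12 h hm
      simp [hF, hm1]) hcl
    exact this hp2
  rw [e3, f2] at f1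
  exact absurd f1 (by simp)

/-- `FMQ(Y, A, D_Y)` is `k₂`-Hausdorff for every compact Hausdorff space `Y` without isolated
points and every closed `A`; in particular for `Y = βℕ \ ℕ` and every finite `A`. -/
theorem result :
    (∀ (Y : Type u) [TopologicalSpace Y] [CompactSpace Y] [T2Space Y],
      (∀ y : Y, ¬ IsOpen ({y} : Set Y)) → ∀ A : Set Y, IsClosed A →
        KTwoHausdorff.{u, v} (FMQ A)) ∧
    (∀ A : Set Remainder, A.Nonempty → A.Finite → KTwoHausdorff.{0, v} (FMQ A)) :=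
  ⟨fun _ _ _ _ hiso _ hA => general hiso hA,
    fun _ _ hfin => general remainder_no_isolated hfin.isClosed⟩

end Pool.Agent.Results.MP_a8a70f_gt.KTwoHausdorff
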